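import Pool.Agent.H35.SW.FStmts

/-!
Module CNT: a generic extension of a countable model is countable.
-/

set_option linter.unusedVariables false
set_option synthInstance.maxSize 100000

namespace SW

theorem IsVal.uniq {N : Type} [SetStr N] [ZF N] {G t y y' : N} (h : IsVal G t y)
    (h' : IsVal G t y') : y = y' := by
  obtain ⟨f, h1, h2, h3⟩ := h
  obtain ⟨f', h1', h2', h3'⟩ := h'
  have key : ∀ x : N, (∀ z z' : N, PairIn x z f → PairIn x z' f' → z = z') ∧
      ∀ u : N, E u x → (∀ z z' : N, PairIn u z f → PairIn u z' f' → z = z') ∧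
        ∀ v : N, E v u → ∀ z z' : N, PairIn v z f → PairIn v z' f' → z = z' := by
    refine mem_induction (C := fun x => (∀ z z' : N, PairIn x z f → PairIn x z' f' → z = z') ∧
      ∀ u : N, E u x → (∀ z z' : N, PairIn u z f → PairIn u z' f' → z = z') ∧
        ∀ v : N, E v u → ∀ z z' : N, PairIn v z f → PairIn v z' f' → z = z')
      (by infer_instance) ?_
    intro x ih
    have hr : ∀ r p, PairIn r p x → ∀ w w' : N, PairIn r w f → PairIn r w' f' → w = w' := by
      intro r p hrp
      rw [pairIn_iff] at hrp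
      exact ((ih _ hrp).2 (sing r) (by simp [opair])).2 r (by simp)
    refine ⟨?_, fun u hu => ⟨(ih u hu).1, fun v hv => ((ih u hu).2 v hv).1⟩⟩
    intro z z' hz hz'
    obtain ⟨a1, a2⟩ := h3 _ _ hz
    obtain ⟨b1, b2⟩ := h3' _ _ hz'
    refine ext fun w => ?_
    rw [a2, b2]
    constructor
    · rintro ⟨r, p, k1, k2, k3⟩
      obtain ⟨w', hw'⟩ := b1 r p k1 k2
      have := hr r p k2 w w' k3 hw'
      subst this
      exact ⟨r, p, k1, k2, hw'⟩
    · rintro ⟨r, p, k1, k2, k3⟩
      obtain ⟨w', hw'⟩ := a1 r p k1 k2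
      have := hr r p k2 w' w hw' k3
      subst this
      exact ⟨r, p, k1, k2, hw'⟩
  exact (key t).1 y y' h1 h1'

/-- CNT -/
theorem cnt : CNTStmt := by
  intro M N _ _ _ _ _ i hi
  obtain ⟨-, -, -, P, le, one, G, -, -, -, -, -, -, hv⟩ := hi
  choose t ht using hv
  refine Function.Injective.countable (f := t) (fun y y' h => ?_)
  have h1 := ht y
  rw [h] at h1
  exact h1.uniq (ht y')

end SW
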