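import Pool.Agent.H35.SW.FStmts

/-!
Module EQ: facts about forced equality and membership.
-/

set_option linter.unusedVariables false
set_option synthInstance.maxSize 100000

namespace SW

namespace EQaux

variable {M : Type} [SetStr M] [ZF M] (F : FPoset M)

/-- the closure condition -/
def Clo (B : M → M → M → Prop) : Prop := ∀ q a b, B q a b → E q F.P ∧
    (∀ c s r, E (opair c s) a → E s F.P → E r F.P → F.le r q → F.le r s →
      ∃ r' d s', E r' F.P ∧ F.le r' r ∧ E (opair d s') b ∧ E s' F.P ∧ F.le r' s' ∧ B r' c d) ∧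
    (∀ d s r, E (opair d s) b → E s F.P → E r F.P → F.le r q → F.le r s →
      ∃ r' c s', E r' F.P ∧ F.le r' r ∧ E (opair c s') a ∧ E s' F.P ∧ F.le r' s' ∧ B r' c d)

theorem coind {B : M → M → M → Prop} (hB : Cl3 B) (hc : Clo F B) {p a b : M} (h : B p a b) :
    EqF F p a b := by
  set t := tc (upair a b) with ht
  have hat : E a t := sub_tc _ _ (by simp)
  have hbt : E b t := sub_tc _ _ (by simp)
  have htr : Trans t := Trans_tc _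
  have hfst : ∀ c s x, E (opair c s) x → E x t → E c t := by
    intro c s x h1 h2
    have h3 : E (opair c s) t := htr x h2 _ h1
    have h4 : E (sing c) t := htr _ h3 _ (by simp [opair])
    exact htr _ h4 _ (by simp)
  have hC : Cl (fun z : M => ∃ q c d : M, z = opair q (opair c d) ∧ B q c d) := by
    infer_instance
  set R := sep (prod F.P (prod t t)) (fun z => ∃ q c d : M, z = opair q (opair c d) ∧ B q c d)
    with hR
  have memR : ∀ q c d, E (opair q (opair c d)) R ↔ E q F.P ∧ E c t ∧ E d t ∧ B q c d := by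
    intro q c d
    rw [hR, mem_sep' hC, mem_prod, mem_prod]
    constructor
    · rintro ⟨⟨h1, h2, h3⟩, q', c', d', h4, h5⟩
      rw [opair_inj, opair_inj] at h4
      obtain ⟨rfl, rfl, rfl⟩ := h4
      exact ⟨h1, h2, h3, h5⟩
    · rintro ⟨h1, h2, h3, h5⟩
      exact ⟨⟨h1, h2, h3⟩, q, c, d, rfl, h5⟩
  refine ⟨R, ?_, (memR _ _ _).2 ⟨(hc _ _ _ h).1, hat, hbt, h⟩⟩
  intro q c d hq
  obtain ⟨h1, h2, h3, h4⟩ := (memR _ _ _).1 hq
  obtain ⟨h5, h6, h7⟩ := hc _ _ _ h4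
  refine ⟨h5, ?_, ?_⟩
  · intro c' s r k1 k2 k3 k4 k5
    obtain ⟨r', d', s', l1, l2, l3, l4, l5, l6⟩ := h6 c' s r k1 k2 k3 k4 k5
    exact ⟨r', d', s', l1, l2, l3, l4, l5, (memR _ _ _).2
      ⟨l1, hfst _ _ _ k1 h2, hfst _ _ _ l3 h3, l6⟩⟩
  · intro d' s r k1 k2 k3 k4 k5
    obtain ⟨r', c', s', l1, l2, l3, l4, l5, l6⟩ := h7 d' s r k1 k2 k3 k4 k5
    exact ⟨r', c', s', l1, l2, l3, l4, l5, (memR _ _ _).2
      ⟨l1, hfst _ _ _ l3 h2, hfst _ _ _ k1 h3, l6⟩⟩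

theorem clo_eq : Clo F (fun q a b => EqF F q a b) := by
  rintro q a b ⟨R, hR, hq⟩
  obtain ⟨h1, h2, h3⟩ := hR _ _ _ hq
  refine ⟨h1, ?_, ?_⟩
  · intro c s r k1 k2 k3 k4 k5
    obtain ⟨r', d, s', l1, l2, l3, l4, l5, l6⟩ := h2 c s r k1 k2 k3 k4 k5
    exact ⟨r', d, s', l1, l2, l3, l4, l5, R, hR, l6⟩
  · intro d s r k1 k2 k3 k4 k5
    obtain ⟨r', c, s', l1, l2, l3, l4, l5, l6⟩ := h3 d s r k1 k2 k3 k4 k5
    exact ⟨r', c, s', l1, l2, l3, l4, l5, R, hR, l6⟩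

variable {F}

theorem inP {p a b : M} (h : EqF F p a b) : E p F.P := (clo_eq F _ _ _ h).1

theorem mono {p q a b : M} (h : EqF F p a b) (hq : E q F.P) (hqp : F.le q p) : EqF F q a b := by
  refine coind F (B := fun q a b => E q F.P ∧ ∃ q' : M, F.le q q' ∧ EqF F q' a b)
    (by infer_instance) ?_ ⟨hq, p, hqp, h⟩
  rintro q a b ⟨hq, q', hle, h⟩
  obtain ⟨h1, h2, h3⟩ := clo_eq F _ _ _ h
  refine ⟨hq, ?_, ?_⟩
  · intro c s r k1 k2 k3 k4 k5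
    obtain ⟨r', d, s', l1, l2, l3, l4, l5, l6⟩ :=
      h2 c s r k1 k2 k3 (F.trans _ _ _ k3 hq h1 k4 hle) k5
    exact ⟨r', d, s', l1, l2, l3, l4, l5, l1, r', F.refl _ l1, l6⟩
  · intro d s r k1 k2 k3 k4 k5
    obtain ⟨r', c, s', l1, l2, l3, l4, l5, l6⟩ :=
      h3 d s r k1 k2 k3 (F.trans _ _ _ k3 hq h1 k4 hle) k5
    exact ⟨r', c, s', l1, l2, l3, l4, l5, l1, r', F.refl _ l1, l6⟩

theorem symm {p a b : M} (h : EqF F p a b) : EqF F p b a := by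
  refine coind F (B := fun q a b => EqF F q b a) (by infer_instance) ?_ h
  intro q a b h
  obtain ⟨h1, h2, h3⟩ := clo_eq F _ _ _ h
  exact ⟨h1, h3, h2⟩

theorem refl {p a : M} (h : E p F.P) : EqF F p a a := by
  refine coind F (B := fun q a b => a = b ∧ E q F.P) (by infer_instance) ?_ ⟨rfl, h⟩
  rintro q a b ⟨rfl, hq⟩
  refine ⟨hq, ?_, ?_⟩
  · intro c s r k1 k2 k3 k4 k5
    exact ⟨r, c, s, k3, F.refl _ k3, k1, k2, k5, rfl, k3⟩
  · intro c s r k1 k2 k3 k4 k5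
    exact ⟨r, c, s, k3, F.refl _ k3, k1, k2, k5, rfl, k3⟩

theorem trans {p a b c : M} (h : EqF F p a b) (h' : EqF F p b c) : EqF F p a c := by
  refine coind F (B := fun q a c => ∃ b : M, EqF F q a b ∧ EqF F q b c) (by infer_instance) ?_
    ⟨b, h, h'⟩
  rintro q a c ⟨b, h, h'⟩
  obtain ⟨h1, h2, h3⟩ := clo_eq F _ _ _ h
  obtain ⟨-, h2', h3'⟩ := clo_eq F _ _ _ h'
  refine ⟨h1, ?_, ?_⟩
  · intro x s r k1 k2 k3 k4 k5
    obtain ⟨r', y, s', l1, l2, l3, l4, l5, l6⟩ := h2 x s r k1 k2 k3 k4 k5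
    obtain ⟨r'', z, s'', m1, m2, m3, m4, m5, m6⟩ :=
      h2' y s' r' l3 l4 l1 (F.trans _ _ _ l1 k3 h1 l2 k4) l5
    exact ⟨r'', z, s'', m1, F.trans _ _ _ m1 l1 k3 m2 l2, m3, m4, m5, y, mono l6 m1 m2, m6⟩
  · intro x s r k1 k2 k3 k4 k5
    obtain ⟨r', y, s', l1, l2, l3, l4, l5, l6⟩ := h3' x s r k1 k2 k3 k4 k5
    obtain ⟨r'', z, s'', m1, m2, m3, m4, m5, m6⟩ :=
      h3 y s' r' l3 l4 l1 (F.trans _ _ _ l1 k3 h1 l2 k4) l5
    exact ⟨r'', z, s'', m1, F.trans _ _ _ m1 l1 k3 m2 l2, m3, m4, m5, y, m6, mono l6 m1 m2⟩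

theorem dense {p a b : M} (hp : E p F.P) (h : ∀ q, E q F.P → F.le q p → ∃ r, E r F.P ∧
    F.le r q ∧ EqF F r a b) : EqF F p a b := by
  refine coind F (B := fun q a b => E q F.P ∧ ∀ q' : M, E q' F.P → F.le q' q →
    ∃ r : M, E r F.P ∧ F.le r q' ∧ EqF F r a b) (by infer_instance) ?_ ⟨hp, h⟩
  rintro q a b ⟨hq, h⟩
  refine ⟨hq, ?_, ?_⟩
  · intro c s r k1 k2 k3 k4 k5
    obtain ⟨r1, n1, n2, n3⟩ := h r k3 k4
    obtain ⟨-, h2, h3⟩ := clo_eq F _ _ _ n3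
    obtain ⟨r', d, s', l1, l2, l3, l4, l5, l6⟩ :=
      h2 c s r1 k1 k2 n1 (F.refl _ n1) (F.trans _ _ _ n1 k3 k2 n2 k5)
    exact ⟨r', d, s', l1, F.trans _ _ _ l1 n1 k3 l2 n2, l3, l4, l5, l1,
      fun q' m1 m2 => ⟨q', m1, F.refl _ m1, mono l6 m1 m2⟩⟩
  · intro d s r k1 k2 k3 k4 k5
    obtain ⟨r1, n1, n2, n3⟩ := h r k3 k4
    obtain ⟨-, h2, h3⟩ := clo_eq F _ _ _ n3
    obtain ⟨r', c, s', l1, l2, l3, l4, l5, l6⟩ :=
      h3 d s r1 k1 k2 n1 (F.refl _ n1) (F.trans _ _ _ n1 k3 k2 n2 k5)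
    exact ⟨r', c, s', l1, F.trans _ _ _ l1 n1 k3 l2 n2, l3, l4, l5, l1,
      fun q' m1 m2 => ⟨q', m1, F.refl _ m1, mono l6 m1 m2⟩⟩

end EQaux

/-- EQ -/
theorem eq : EQStmt := by
  intro M _ _ F
  refine
    { inP := EQaux.inP
      left := fun h => (EQaux.clo_eq F _ _ _ h).2.1 _ _ _
      right := fun h => (EQaux.clo_eq F _ _ _ h).2.2 _ _ _
      coind := fun B hB hc p a b h => EQaux.coind F hB hc h
      mono := EQaux.mono
      refl := EQaux.refl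
      symm := EQaux.symm
      trans := EQaux.trans
      dense := EQaux.dense
      minP := fun h => h.1
      mmono := ?_
      mdense := ?_
      mintro := ?_
      mcongl := ?_
      mcongr := ?_ }
  · intro p q a b h hq hqp
    exact ⟨hq, fun r hr hrq => h.2 r hr (F.trans _ _ _ hr hq h.1 hrq hqp)⟩
  · intro p a b hp h
    refine ⟨hp, fun q hq hqp => ?_⟩
    obtain ⟨r, h1, h2, h3⟩ := h q hq hqp
    obtain ⟨r', d, s, l1, l2, l3⟩ := h3.2 r h1 (F.refl _ h1)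
    exact ⟨r', d, s, l1, F.trans _ _ _ l1 h1 hq l2 h2, l3⟩
  · intro p s a b h1 h2 h3 h4
    exact ⟨h3, fun q hq hqp => ⟨q, a, s, hq, F.refl _ hq, h1, h2, F.trans _ _ _ hq h3 h2 hqp h4,
      EQaux.refl hq⟩⟩
  · intro p a a' b h1 h2
    refine ⟨h2.1, fun q hq hqp => ?_⟩
    obtain ⟨r, d, s, l1, l2, l3, l4, l5, l6⟩ := h2.2 q hq hqp
    exact ⟨r, d, s, l1, l2, l3, l4, l5, EQaux.trans (EQaux.symm (EQaux.mono h1 l1
      (F.trans _ _ _ l1 hq h2.1 l2 hqp))) l6⟩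
  · intro p a b b' h1 h2
    refine ⟨h2.1, fun q hq hqp => ?_⟩
    obtain ⟨r, d, s, l1, l2, l3, l4, l5, l6⟩ := h2.2 q hq hqp
    obtain ⟨r', d', s', m1, m2, m3, m4, m5, m6⟩ := (EQaux.clo_eq F _ _ _ h1).2.1 d s r l3 l4 l1
      (F.trans _ _ _ l1 hq h2.1 l2 hqp) l5
    exact ⟨r', d', s', m1, F.trans _ _ _ m1 l1 hq m2 l2, m3, m4, m5,
      EQaux.trans (EQaux.mono l6 m1 m2) m6⟩

end SW
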