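import Pool.Agent.H35.SW.FStmts

/-!
Module GM: generic filters meet dense classes.
-/

set_option linter.unusedVariables false
set_option synthInstance.maxSize 100000

namespace SW

/-- GM -/
theorem gm : GMStmt := by
  intro M _ _ F G hG
  have meetC : ∀ C : M → Prop, Cl C → (∀ p, E p F.P → ∃ q, E q F.P ∧ F.le q p ∧ C q) →
      ∃ p, G p ∧ C p := by
    intro C hC h
    obtain ⟨p, h1, h2⟩ := hG.meet (sep F.P C) (fun p hp => by
      obtain ⟨q, k1, k2, k3⟩ := h p hp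
      exact ⟨q, k1, k2, (mem_sep' hC).2 ⟨k1, k3⟩⟩)
    exact ⟨p, h1, ((mem_sep' hC).1 h2).2⟩
  refine ⟨meetC, ?_⟩
  intro C hC p0 hp0 h
  obtain ⟨p, h1, h2⟩ := meetC (fun q => (F.le q p0 ∧ C q) ∨
    ¬ ∃ r : M, E r F.P ∧ F.le r q ∧ F.le r p0) (by infer_instance) (fun p hp => by
      by_cases hr : ∃ r : M, E r F.P ∧ F.le r p ∧ F.le r p0
      · obtain ⟨r, k1, k2, k3⟩ := hr
        obtain ⟨q, l1, l2, l3⟩ := h r k1 k3
        exact ⟨q, l1, F.trans _ _ _ l1 k1 hp l2 k2, Or.inl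
          ⟨F.trans _ _ _ l1 k1 (hG.sub _ hp0) l2 k3, l3⟩⟩
      · exact ⟨p, hp, F.refl _ hp, Or.inr hr⟩)
  rcases h2 with h2 | h2
  · exact ⟨p, h1, h2.1, h2.2⟩
  · obtain ⟨r, k1, k2, k3⟩ := hG.dir p p0 h1 hp0
    exact absurd ⟨r, hG.sub _ k1, k2, k3⟩ h2

end SW
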